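import Pool.Agent.Y748.SR.Stm

/-!
# Project SR (owner helper748), task GROW: homogeneity from growth
-/

set_option autoImplicit false

open Finset

namespace Pool.Agent.Y664.SR

open Pool.Agent.Y748.SR

theorem big {a b K : ℝ} {m : ℕ} (hm : 1 ≤ m)
    (h : ∀ t : ℝ, 0 < t → 0 ≤ a * t ^ m + b ∧ a * t ^ m + b ≤ K) : a = 0 := by
  by_contra ha
  have ha' : 0 < |a| := abs_pos.2 ha
  obtain ⟨t, ht⟩ : ∃ t : ℝ, t = max 1 ((|K| + |b| + 1) / |a|) := ⟨_, rfl⟩
  have ht1 : 1 ≤ t := by rw [ht]; exact le_max_left _ _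
  have ht2 : (|K| + |b| + 1) / |a| ≤ t := by rw [ht]; exact le_max_right _ _
  have ht3 : |K| + |b| + 1 ≤ |a| * t ^ m := by
    rw [div_le_iff₀ ha'] at ht2
    have h1 : t ≤ t ^ m := le_self_pow₀ ht1 (by omega)
    calc |K| + |b| + 1 ≤ t * |a| := ht2
      _ ≤ t ^ m * |a| := by gcongr
      _ = _ := mul_comm _ _
  obtain ⟨h1, h2⟩ := h t (by linarith)
  have h3 := le_abs_self b
  have h4 := le_abs_self K
  have h5 := neg_abs_le b
  have h6 := abs_nonneg K
  rcases abs_cases a with ⟨h7, _⟩ | ⟨h7, _⟩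
  · rw [h7] at ht3
    linarith
  · rw [h7] at ht3
    linarith

theorem small {a K : ℝ} {m : ℕ} (hm : 1 ≤ m)
    (h : ∀ t : ℝ, 0 < t → 0 ≤ a ∧ a ≤ K * t ^ m) : a = 0 := by
  have ha := (h 1 one_pos).1
  by_contra ha0
  have ha1 : 0 < a := lt_of_le_of_ne ha (Ne.symm ha0)
  have hK : 0 ≤ |K| := abs_nonneg K
  obtain ⟨t, ht⟩ : ∃ t : ℝ, t = min 1 (a / (2 * (|K| + 1))) := ⟨_, rfl⟩
  have ht0 : 0 < t := by rw [ht]; exact lt_min one_pos (by positivity)
  have ht1 : t ≤ 1 := by rw [ht]; exact min_le_left _ _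
  have ht2 : t ≤ a / (2 * (|K| + 1)) := by rw [ht]; exact min_le_right _ _
  rw [le_div_iff₀ (by positivity)] at ht2
  have h1 : t ^ m ≤ t := pow_le_of_le_one ht0.le ht1 (by omega)
  have h2 := (h t ht0).2
  have h3 : K * t ^ m ≤ |K| * t := by
    calc K * t ^ m ≤ |K| * t ^ m := by gcongr; exact le_abs_self K
      _ ≤ |K| * t := by gcongr
  nlinarith

/-- task GROW -/
theorem t_GROW : S_GROW := by
  intro c R k h T
  induction T using Finset.strongInduction with
  | H T ih =>
    intro hT hk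
    obtain ⟨K, hK⟩ := h T hT
    obtain ⟨s, hs⟩ : ∃ s : ℝ, s = ∑ T1 ∈ T.ssubsets with T1.card = k, c T1 := ⟨_, rfl⟩
    have h1 : ∀ t : ℝ, ∑ T1 ∈ T.powerset, c T1 * t ^ T1.card = c T * t ^ T.card + s * t ^ k := by
      intro t
      rw [← Finset.sum_erase_add _ _ (Finset.mem_powerset_self T), add_comm]
      congr 1
      change ∑ T1 ∈ T.ssubsets, c T1 * t ^ T1.card = _
      rw [hs, Finset.sum_mul, Finset.sum_filter]
      refine Finset.sum_congr rfl fun T1 hT1 => ?_
      rw [Finset.mem_ssubsets] at hT1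
      by_cases hc : T1.card = k
      · rw [if_pos hc, hc]
      · rw [if_neg hc, ih T1 hT1 (Finset.mem_powerset.2
          (hT1.subset.trans (Finset.mem_powerset.1 hT))) hc, zero_mul]
    rcases lt_or_gt_of_ne hk with hlt | hgt
    · have hs0 : s = 0 := by
        rw [hs]
        refine Finset.sum_eq_zero fun T1 hT1 => ?_
        rw [Finset.mem_filter, Finset.mem_ssubsets] at hT1
        have := Finset.card_lt_card hT1.1
        omega
      refine small (m := k - T.card) (K := K) (by omega) fun t ht => ?_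
      obtain ⟨h2, h3⟩ := hK t ht
      rw [h1, hs0, zero_mul, add_zero] at h2 h3
      have h4 : t ^ k = t ^ T.card * t ^ (k - T.card) := by
        rw [← pow_add]
        congr 1
        omega
      have h5 : 0 < t ^ T.card := by positivity
      refine ⟨nonneg_of_mul_nonneg_left h2 h5, ?_⟩
      refine le_of_mul_le_mul_right ?_ h5
      calc c T * t ^ T.card ≤ K * t ^ k := h3
        _ = _ := by rw [h4]; ring
    · refine big (m := T.card - k) (K := K) (b := s) (by omega) fun t ht => ?_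
      obtain ⟨h2, h3⟩ := hK t ht
      rw [h1] at h2 h3
      have h4 : t ^ T.card = t ^ (T.card - k) * t ^ k := by
        rw [← pow_add]
        congr 1
        omega
      have h5 : 0 < t ^ k := by positivity
      have h6 : c T * t ^ T.card + s * t ^ k = (c T * t ^ (T.card - k) + s) * t ^ k := by
        rw [h4]
        ring
      rw [h6] at h2 h3
      exact ⟨nonneg_of_mul_nonneg_left h2 h5, le_of_mul_le_mul_right h3 h5⟩

end Pool.Agent.Y664.SR
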